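import Pool.Agent.HS.M_weak_fail
import Pool.Agent.HS.M_he_expand

/-!
# The weak Gaussian heat-smoothing inequality fails for `1 < p < 2`

The polynomial of `HS.weak_fail` (Starting point) is a finite combination of Hermite products of
degree larger than `d`; the Ornstein-Uhlenbeck operator acts on it as `NN`.
-/

set_option autoImplicit false

open MeasureTheory ProbabilityTheory Filter Topology Set Polynomial
open scoped ENNReal NNReal Real

namespace Pool.Agent.H726R3.GWS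

open HS

theorem he_succ (k : ℕ) : he (k + 1) = X * he k - derivative (he k) := by
  rcases k with _ | k
  · simp [he]
  · rw [he_facts_rec, (he_facts_der k).1]

theorem he_eq (k : ℕ) : he k = (Polynomial.hermite k).map (Int.castRingHom ℝ) := by
  induction k with
  | zero => simp [he]
  | succ k ih =>
    rw [he_succ, Polynomial.hermite_succ, ih]
    simp [Polynomial.derivative_map]

theorem aeval_hermite (k : ℕ) (s : ℝ) : Polynomial.aeval s (Polynomial.hermite k) = (he k).eval s := by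
  rw [he_eq, Polynomial.eval_map, Polynomial.aeval_def]
  rfl

/-- the function `x ↦ ∑ Q(x_j)` -/
noncomputable def SQ (n : ℕ) (Q : ℝ[X]) (x : Fin n → ℝ) : ℝ := ∑ j, Q.eval (x j)

theorem SQ_mem (n d : ℕ) (Q : ℝ[X])
    (hT : ∀ R : ℝ[X], R.natDegree ≤ d → ∫ s, Q.eval s * R.eval s ∂G1 = 0) :
    SQ n Q ∈ Submodule.span ℝ {g : (Fin n → ℝ) → ℝ | ∃ α : Fin n → ℕ, d ≤ ∑ i, α i ∧
          g = fun x => ∏ i, Polynomial.aeval (x i) (Polynomial.hermite (α i))} := by
  obtain ⟨D, c, hc, hQ, -⟩ := he_expand d Q hT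
  have h1 : SQ n Q = ∑ j : Fin n, ∑ k ∈ Finset.range (D + 1),
      c k • (fun x : Fin n → ℝ => (he k).eval (x j)) := by
    funext x
    simp only [SQ, Finset.sum_apply, Pi.smul_apply, smul_eq_mul]
    refine Finset.sum_congr rfl fun j _ => ?_
    conv_lhs => rw [hQ]
    simp [Polynomial.eval_finset_sum]
  rw [h1]
  refine Submodule.sum_mem _ fun j _ => Submodule.sum_mem _ fun k _ => ?_
  by_cases hk : k ≤ d
  · rw [hc k hk, zero_smul]
    exact Submodule.zero_mem _
  · refine Submodule.smul_mem _ _ (Submodule.subset_span ⟨Pi.single j k, ?_, ?_⟩)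
    · rw [Finset.sum_pi_single']
      simp
      omega
    · funext x
      rw [Finset.prod_eq_single j]
      · rw [Pi.single_eq_same, aeval_hermite]
      · intro i _ hi
        rw [Pi.single_eq_of_ne hi]
        simp
      · intro h
        exact absurd (Finset.mem_univ j) h

theorem hasFDeriv_eval (n : ℕ) (Q : ℝ[X]) (j : Fin n) (x : Fin n → ℝ) :
    HasFDerivAt (fun y : Fin n → ℝ => Q.eval (y j))
      ((derivative Q).eval (x j) • (ContinuousLinearMap.proj j : (Fin n → ℝ) →L[ℝ] ℝ)) x := by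
  have h1 : HasDerivAt (fun s : ℝ => Q.eval s) ((derivative Q).eval (x j)) (x j) :=
    Q.hasDerivAt (x j)
  have h2 : HasFDerivAt (fun y : Fin n → ℝ => y j)
      (ContinuousLinearMap.proj j : (Fin n → ℝ) →L[ℝ] ℝ) x :=
    (ContinuousLinearMap.proj j : (Fin n → ℝ) →L[ℝ] ℝ).hasFDerivAt
  exact h1.comp_hasFDerivAt x h2

theorem fderiv_SQ (n : ℕ) (Q : ℝ[X]) (i : Fin n) (x : Fin n → ℝ) :
    fderiv ℝ (SQ n Q) x (Pi.single i 1) = (derivative Q).eval (x i) := by
  have h1 : HasFDerivAt (SQ n Q)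
      (∑ j : Fin n, (derivative Q).eval (x j) •
        (ContinuousLinearMap.proj j : (Fin n → ℝ) →L[ℝ] ℝ)) x := by
    have : SQ n Q = fun y => ∑ j : Fin n, Q.eval (y j) := rfl
    rw [this]
    exact HasFDerivAt.fun_sum fun j _ => hasFDeriv_eval n Q j x
  rw [h1.fderiv]
  simp only [ContinuousLinearMap.sum_apply, ContinuousLinearMap.smul_apply,
    ContinuousLinearMap.proj_apply, smul_eq_mul]
  rw [Finset.sum_eq_single i]
  · simp
  · intro j _ hj
    rw [Pi.single_eq_of_ne hj]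
    simp
  · intro h
    exact absurd (Finset.mem_univ i) h

theorem op_SQ (n : ℕ) (Q : ℝ[X]) :
    (fun x : Fin n → ℝ => ∑ i, (x i * fderiv ℝ (SQ n Q) x (Pi.single i 1)
      - fderiv ℝ (fun y => fderiv ℝ (SQ n Q) y (Pi.single i 1)) x (Pi.single i 1))) =
      SQ n (NN Q) := by
  funext x
  simp only [fderiv_SQ]
  unfold SQ
  refine Finset.sum_congr rfl fun i _ => ?_
  rw [(hasFDeriv_eval n (derivative Q) i x).fderiv]
  simp [NN]

theorem SQ_memLp (n : ℕ) (Q : ℝ[X]) (p : ℝ≥0∞) (hp : p ≤ 2) : MemLp (SQ n Q) p (Gn n) := by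
  have h1 : MemLp (SQ n Q) 2 (Gn n) := by
    have : SQ n Q = fun y => ∑ j : Fin n, Q.eval (y j) := rfl
    rw [this]
    refine memLp_finset_sum _ fun j _ => ?_
    exact (weak_fail_memLp Q).comp_measurePreserving
      (measurePreserving_eval (fun _ : Fin n => gaussianReal 0 1) j)
  exact h1.mono_exponent hp

theorem main :
    ¬ (∀ p : ℝ, 1 < p → ∃ c : ℝ, 0 < c ∧ ∀ d : ℕ, 1 ≤ d → ∀ n : ℕ, ∀ f : (Fin n → ℝ) → ℝ,
      f ∈ Submodule.span ℝ {g : (Fin n → ℝ) → ℝ | ∃ α : Fin n → ℕ, d ≤ ∑ i, α i ∧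
          g = fun x => ∏ i, Polynomial.aeval (x i) (Polynomial.hermite (α i))} →
      ENNReal.ofReal (c * (d : ℝ)) *
          MeasureTheory.eLpNorm f (ENNReal.ofReal p)
            (MeasureTheory.Measure.pi (fun _ : Fin n => ProbabilityTheory.gaussianReal 0 1))
        ≤ MeasureTheory.eLpNorm
            (fun x => ∑ i, (x i * fderiv ℝ f x (Pi.single i 1)
              - fderiv ℝ (fun y => fderiv ℝ f y (Pi.single i 1)) x (Pi.single i 1)))
            (ENNReal.ofReal p)
            (MeasureTheory.Measure.pi (fun _ : Fin n => ProbabilityTheory.gaussianReal 0 1))) := by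
  intro H
  obtain ⟨c, hc, H⟩ := H (3 / 2) (by norm_num)
  obtain ⟨d, n, Q, hd, -, hT, hlt⟩ := weak_fail (3 / 2) (by norm_num) (by norm_num) c hc
  have h1 := H d hd n (SQ n Q) (SQ_mem n d Q hT)
  rw [op_SQ] at h1
  have hp2 : ENNReal.ofReal (3 / 2) ≤ 2 := by
    rw [← ENNReal.ofReal_ofNat]
    exact ENNReal.ofReal_le_ofReal (by norm_num)
  have hp0 : ENNReal.ofReal (3 / 2) ≠ 0 := by
    rw [Ne, ENNReal.ofReal_eq_zero]
    norm_num
  have hpt : (ENNReal.ofReal (3 / 2 : ℝ)).toReal = 3 / 2 := ENNReal.toReal_ofReal (by norm_num)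
  have e1 : ∀ R : ℝ[X], eLpNorm (SQ n R) (ENNReal.ofReal (3 / 2)) (Gn n) =
      ENNReal.ofReal ((∫ x : Fin n → ℝ, |∑ j, R.eval (x j)| ^ (3 / 2 : ℝ) ∂(Gn n)) ^
        (1 / (3 / 2) : ℝ)) := by
    intro R
    rw [(SQ_memLp n R _ hp2).eLpNorm_eq_integral_rpow_norm hp0 ENNReal.ofReal_ne_top, hpt]
    simp only [Real.norm_eq_abs, one_div, SQ]
  rw [e1, e1, ← ENNReal.ofReal_mul (by positivity)] at h1
  have h2 : 0 ≤ (∫ x : Fin n → ℝ, |∑ j, (NN Q).eval (x j)| ^ (3 / 2 : ℝ) ∂(Gn n)) ^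
      (1 / (3 / 2) : ℝ) :=
    Real.rpow_nonneg (integral_nonneg fun x => Real.rpow_nonneg (abs_nonneg _) _) _
  rw [ENNReal.ofReal_le_ofReal_iff h2] at h1
  linarith

end Pool.Agent.H726R3.GWS
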